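import Pool.Agent.X305.HA.Iso

open CategoryTheory AlgebraicGeometry

universe u v

open Pool.Agent.H914 Pool.Agent.H914.VarClass Pool.Agent.H914.VarClass.Obj Pool.Agent.X305.HA

/-- **The standard conjecture of Hodge type is anisotropy, and one distance from the middle
suffices.** Let `Pol` be a class of pairs `(X, D)` of a smooth proper variety and a divisor with
`deg (D ^ dim X) > 0` which is closed under products with one curve `P` with a divisor of positive
degree; for example all `(X, D)`, `D` ample, for which `X` satisfies the conjectures of Kunneth and
Lefschetz type (the varieties of the problem). The intersection theory is any one which is compatible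
with a Weil cohomology theory. Fix a number `g` and a set `S` which contains infinitely many numbers
of the parity of `g`. Then the following are equivalent:
(1) the conjecture for all `(X, D)` in `Pol`: for `dim X = 2 n + g'` and every cycle `z` of
codimension `n` on `X` which is primitive modulo numerical equivalence and is not numerically
equivalent to zero, `(-1) ^ n deg (z · z · D ^ g') > 0`;
(2) this positivity only for the `X` whose dimension lies in `S`, and only in the one codimension `n`
with `dim X = 2 n + g` (at distance `g / 2` from the middle; `g = 0` is the middle codimension);
(3) for the same `X` and `n`: no primitive `z` which is not numerically equivalent to zero is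
isotropic, that is, `deg (z · z · D ^ g) ≠ 0`.
So the sign in the conjecture is automatic: the conjecture says no more than that a primitive class
is detected, up to numerical equivalence, by the single number `deg (z · z · D ^ g)`. Conversely, one
primitive class with the wrong sign on some `X` gives a nonzero isotropic primitive class on
products of `X` with copies of `P`, in the middle codimension and at any other distance from it. -/
theorem Pool.Agent.Results.MP_ffcd14_ag.AnisotropySuffices.result {k : Type u} [Field k]
    {𝒱 : VarClass k} {ops : CycleOps 𝒱} (W : WeilCohomology.{u, v} ops)
    (P : 𝒱.Obj) (h : P.Cycles) (Pol : ∀ X : 𝒱.Obj, X.Cycles → Prop)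
    (hPol : IsPolarClass ops P h Pol) (g : ℕ) (S : Set ℕ)
    (hS : {N | N ∈ S ∧ N % 2 = g % 2}.Infinite) :
    List.TFAE [
      ∀ (X : 𝒱.Obj) (D : X.Cycles), Pol X D → HodgeNum ops X D,
      AtDistance Pol S g (PositiveAt ops),
      AtDistance Pol S g (AnisotropicAt ops)] :=
  main (W := W) hPol g S hS
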