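import Pool.Agent.X305.Fj.Main

open CategoryTheory AlgebraicGeometry

universe u v

open Pool.Agent.H914 Pool.Agent.H914.VarClass Pool.Agent.H914.VarClass.Obj
  Pool.Agent.W552 Pool.Agent.X305.Fj

/-- **The standard conjectures of Hodge type and `D` for varieties with a Fujiki relation, in every
characteristic.** Let `X` be a smooth proper variety of dimension `2 n ≥ 2` over an algebraically
closed field of any characteristic (the degree of a zero-cycle is the sum of its coefficients), with a
quadratic form `q` on divisors such that `deg (z ^ (2 n)) = c q(z) ^ n` for all divisors `z`, with a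
constant `c > 0`; let `D` be a divisor with `q(D) > 0` for which the Hodge index theorem holds (it is
a theorem for ample `D`). Examples are the varieties of hyperkaehler type in any characteristic
(Hilbert schemes of points and smooth moduli spaces of sheaves on K3 surfaces, generalised Kummer
varieties), also the supersingular ones, and surfaces. Then:
(1) for `j ≤ n` the conjectures of Hodge type and `D` hold for all cycles on `X` whose class is a
linear combination (with coefficients in the coefficient field) of products of `j` divisor classes:
the sign of `z · z · D ^ (2 n - 2 j)` is `(-1) ^ j` if `z` is primitive with nonzero class;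
(2) if the class of every cycle of codimension `j ≤ n` is such a combination, the standard
conjecture of Hodge type holds for `X` and `D`, and the conjecture `D` holds in all codimensions
`j ≤ n`. For example this is the case for the supersingular varieties of `K3^[2]`-type, where
`H^4 = Sym^2 H^2` and all of `H^2` is algebraic.
No lifting of the cycles to characteristic zero, no Frobenius endomorphism and no case of the Tate
conjecture is used: the form `q` has signature `(1, ρ - 1)` on the divisors, not the signature it has
on the second cohomology in characteristic zero. -/
theorem Pool.Agent.Results.MP_ffcd14_ag.FujikiRelation.result {k : Type u} [Field k]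
    {𝒱 : VarClass k} {ops : CycleOps 𝒱} (W : WeilCohomology.{u, v} ops) (X : 𝒱.Obj)
    (D : X.Cycles) (n : ℕ) (c : ℚ) (q : QuadraticForm ℚ X.Cycles) (hn : X.dim = 2 * n)
    (hn1 : 1 ≤ n) (hD : X.IsCyc 1 D) (hF : FujikiRelation ops X n c q) (hq : 0 < q D)
    (hI : HodgeIndex W X D) :
    (∀ j ≤ n, HodgeTypeFor W X D (DivisorRing W X j) ∧ HomEqNumFor W X (DivisorRing W X j)) ∧
    ((∀ j ≤ n, ∀ z, X.IsCyc j z → DivisorRing W X j (W.cl X z)) →
      HodgeType W X D ∧ ∀ j ≤ n, ∀ z, X.IsCyc j z →
        (∀ w, X.IsCyc (X.dim - j) w → X.V.degCycle (ops.mul z w) = 0) → W.cl X z = 0) :=
  main hn hn1 hD hF hq hI
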