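import Pool.Agent.X305.Fj.Gen

open CategoryTheory AlgebraicGeometry

universe u v

open Pool.Agent.H914 Pool.Agent.H914.VarClass Pool.Agent.H914.VarClass.Obj
  Pool.Agent.W552 Pool.Agent.Y103 Pool.Agent.X305.Fj

/-- **The standard conjecture of Hodge type for liftable varieties: from low codimension to the
algebra generated, and the varieties whose cohomology is generated by divisors.** Let `X` be a smooth
proper variety over an algebraically closed field of any characteristic (degrees of zero-cycles are
sums of coefficients) and `D` a divisor on `X`. Suppose that `c` is a Hodge-Riemann involution of the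
cohomology of `X` for `D`; such a `c` exists if `X` and `D` lift to characteristic zero, and nothing is
assumed about lifting any other cycles.
(1) Let `m ≥ 1`, let `R i`, `i ≤ m`, be sets of algebraic classes of codimension `i`, the class of `D`
among them, such that the algebra generated by them is mapped to itself by `c` and contains the
Lefschetz components of its elements. If the conjecture of Hodge type holds for the classes of this
algebra of codimension at most `m`, then the conjectures of Hodge type and `D` hold for all the classes
of this algebra of codimension at most `dim X / 2`.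
(2) If the cohomology of `X` in the even degrees up to `dim X` is generated by divisors (for example
for the supersingular reductions of abelian varieties and of varieties of `K3^[2]`-type, and for their
products), and `D` satisfies hard Lefschetz and the Hodge index theorem, then the standard conjecture of
Hodge type holds for `X` and `D`, and the conjecture `D` holds in all codimensions up to the middle. -/
theorem Pool.Agent.Results.MP_ffcd14_ag.GeneratedInLowCodimension.result {k : Type u} [Field k]
    {𝒱 : VarClass k} {ops : CycleOps 𝒱} (W : WeilCohomology.{u, v} ops) (X : 𝒱.Obj)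
    (D : X.Cycles) (hD : X.IsCyc 1 D) (ι : W.K ≃+* ℂ) (c : W.H X → W.H X)
    (hc : HodgeRiemann W X D ι c) :
    (∀ (m : ℕ) (R : ℕ → Set (W.H X)), 1 ≤ m → (∀ i, R i ⊆ algClasses W X i) → W.cl X D ∈ R 1 →
      RingStable W.K R m c → LefschetzStable W.K R m X.dim (W.cl X D) →
      HodgeTypeFor W X D (InRing W.K R m m) → StdFor W X D (InRing W.K R m (X.dim / 2))) ∧
    (2 ≤ X.dim → 0 < X.V.degCycle (divPow ops D X.dim X.V.fundCycle) → HardLefschetz W X D →
      HodgeIndex W X D → GeneratedByDivisors W X → (∀ a ∈ W.gr X 2, c a ∈ W.gr X 2) →
      HodgeType W X D ∧ ∀ j, 2 * j ≤ X.dim → ∀ z, X.IsCyc j z →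
        (∀ w, X.IsCyc (X.dim - j) w → X.V.degCycle (ops.mul z w) = 0) → W.cl X z = 0) :=
  ⟨fun _ _ hm hR hDR hcR hL hS => hodge_generated hD hc hm hR hDR hcR hL hS,
    fun hX hdeg hHL hI hG hc2 => generated hX hD hdeg hHL hI hG hc hc2⟩
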