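import Pool.Agent.X305.PI.Fin

open CategoryTheory AlgebraicGeometry

universe u v

open Pool.Agent.H914 Pool.Agent.H914.VarClass Pool.Agent.H914.VarClass.Obj
  Pool.Agent.X305.HA Pool.Agent.X305.PI

/-- **The standard conjecture of Hodge type for reductions of varieties, if at most one Tate class
does not lift; parity of the index.** Let `X` be a smooth proper variety of dimension `2 n + g` over
the algebraic closure of a finite field of characteristic `p`, `D` an ample divisor, `W ℓ` the
`ℓ`-adic cohomology, `ℓ ≠ p`, and suppose that `X` and `D` satisfy the conjecture `A` of Lefschetz
type. Let `f` be the Frobenius endomorphism over a finite field with `q` elements over which `X`, `D`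
and all classes of cycles of codimension `n` are defined, and `R` the characteristic polynomial of
`q ^ (-n) f^*` on the primitive cohomology in degree `2 n` (it has rational coefficients, does not
depend on `ℓ`, and its roots have absolute value `1`; `-1` is not a root after passing to the square
of `f`); `t`, the multiplicity of the root `1`, is the number of Tate classes. Suppose that `X` and
`D` lift to characteristic zero: the primitive cohomology comes from a polarized rational Hodge
structure `B`. Nothing is assumed about lifting cycles; let `y 1, ..., y r` be cycles whose classes
come from linearly independent Hodge classes in `B` (`r = 0` is allowed). The Tate conjecture is not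
assumed. Then:
(1) if `t ≤ r + 1`, that is, if at most one Tate class does not lift, then the standard conjecture of
Hodge type holds in codimension `n`, modulo numerical equivalence: `(-1) ^ n deg (z · z · D ^ g) > 0`
for all cycles `z` of codimension `n` which are numerically primitive and are not numerically
equivalent to zero;
(2) in general let `w 1, ..., w m` be numerically primitive cycles, orthogonal to the `y i` and
linearly independent modulo numerical equivalence. Then `r + m ≤ t`, and if `r + m = t` the
determinant of the numbers `(-1) ^ n deg (w i · w j · D ^ g)` is positive (for `m = 1` this gives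
(1)). So the number of negative squares of the form of the conjecture is at most `t - r` and it is
not `t - r` if this number is odd; and if the Tate conjecture holds for `X` in codimension `n`, the
number of negative squares is even. -/
theorem Pool.Agent.Results.MP_ffcd14_ag.OneNonLiftingClass.result {k : Type u} [Field k]
    {𝒱 : VarClass k} {ops : CycleOps 𝒱} {p : ℕ} {W : PrimesNe p → WeilCohomology.{u, v} ops}
    {X : 𝒱.Obj} {D : X.Cycles} {n g : ℕ} {f : X ⟶ X} {q : ℕ} {R : Polynomial ℚ}
    {B : Type} [AddCommGroup B] [Module ℚ B] {H : PolarizedHodge B} {c : ∀ ℓ, B →+ (W ℓ).H X}
    (h : IsReduction W X D n g f q R H c) {r : ℕ} {y : Fin r → X.Cycles} {b : Fin r → B}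
    (hy : IsLifted W X n H c y b) :
    (R.rootMultiplicity 1 ≤ r + 1 → PositiveAt ops X D n g) ∧
    ∀ (m : ℕ) (w : Fin m → X.Cycles), (∀ i, NumPrimitive ops X D n g (w i)) →
      (∀ i j, pairing ops X D n g (w i) (y j) = 0) → NumIndependent ops X n w →
      r + m ≤ R.rootMultiplicity 1 ∧
        (r + m = R.rootMultiplicity 1 → 0 < (pairingMatrix ops X D n g w).det) :=
  ⟨fun ht => positive_of_le (fun ℓ => (h.coeff ℓ).some) h.div h.dim h.lefschetz h.pos h.weight
    h.neg_one h.frobenius h.comparison hy.cyc hy.indep hy.hodge hy.cl ht,
    fun _ _ hw hwy hi => family_lift (fun ℓ => (h.coeff ℓ).some) h.div h.dim h.lefschetz h.pos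
      h.weight h.neg_one h.frobenius h.comparison hy.cyc hy.indep hy.hodge hy.cl hw hwy hi⟩
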